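import Pool.Agent.H66.MS.Pert

/-!
# The mean value of the sieve function
-/

set_option autoImplicit false

namespace Pool.Agent.H66.MS

open Finset Real Pool.Agent.H44.MS

/-- the mean value of the sieve function as a product -/
theorem mean_eq (hBP : T_BP) (hTR : T_TR) (hLV : T_LV) (A : ℕ → Prop) (s z : ℕ) (hz : 2 ≤ z) :
    ∑ d ∈ Icc 1 (z ^ (4 * s + 4)), lam A s z d / d =
      ∏ i ∈ range (z + 1), ∑ U ∈ (Bl A z i).powerset,
        ic (U.card ≤ 2 * (s + i)) * (-1) ^ U.card / ∏ p ∈ U, (p : ℝ) := by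
  rw [← sum_An hBP hTR A z (z ^ (4 * s + 4)) (fun d => ic (Ok s z d) * mu d / d)
    (fun i U => ic (U.card ≤ 2 * (s + i)) * (-1) ^ U.card / ∏ p ∈ U, (p : ℝ))]
  · refine sum_congr rfl fun d _ => ?_
    unfold lam
    rw [ic_and]
    ring
  · intro T hT h0
    have h1 : ic (Ok s z (∏ p ∈ T, p)) ≠ 0 := by
      intro h2
      apply h0
      simp only [h2, zero_mul, zero_div]
    exact (hLV A s z _ hz).1 ⟨((hTR A z).1 T hT).2.2.1, ic_ne_zero h1⟩
  · intro T hT
    show ic (Ok s z (∏ p ∈ T, p)) * mu (∏ p ∈ T, p) / ((∏ p ∈ T, p : ℕ) : ℝ) = _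
    rw [mul_div_assoc, ic_Ok hTR s hT, mu_div hTR hT, ← prod_mul_distrib]
    refine prod_congr rfl fun i _ => ?_
    rw [mul_div_assoc]

/-- The mean value of the sieve function. -/
theorem pf_DNa (hBP : T_BP) (hTR : T_TR) (hBK : T_BK) (hBL : T_BL) (hLV : T_LV) : T_DNa := by
  obtain ⟨H, hH0, hH⟩ := hBL
  set K : ℝ := (4 : ℝ) ^ H * exp (32 * H) with hK
  have hK0 : 0 < K := by positivity
  obtain ⟨S, hS⟩ := exists_S K
  refine ⟨S, fun s hs A z hz => ?_⟩
  rw [mean_eq hBP hTR hLV A s z hz, va_prod hTR A z]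
  set V : ℕ → ℝ := fun i => ∏ p ∈ Bl A z i, (1 - 1 / (p : ℝ)) with hV
  set W : ℕ → ℝ := fun i => ∑ U ∈ (Bl A z i).powerset,
        ic (U.card ≤ 2 * (s + i)) * (-1) ^ U.card / ∏ p ∈ U, (p : ℝ) with hW
  have hbk := fun i => hBK (Bl A z i) H 1 (2 * (s + i)) (fun p hp => prime_of_mem_Bl hp) le_rfl
    (mass_Bl hH A z i)
  have hVlow : ∀ i, (4 : ℝ) ^ (-H) ≤ V i := fun i => (hbk i).2.2.1
  have h4 : (0 : ℝ) < (4 : ℝ) ^ (-H) := by positivity
  have hV0 : ∀ i, 0 ≤ V i := fun i => h4.le.trans (hVlow i)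
  have hWV : ∀ i, |W i - V i| ≤ K / 16 ^ (2 * (s + i) + 1) * V i := by
    intro i
    have h1 := (hbk i).1 (fun U => ic (U.card ≤ 2 * (s + i)) * (-1) ^ U.card)
      (fun U _ hU => by simp only [ic_pos hU, one_mul])
      (fun U _ => by
        rw [one_pow, abs_mul, abs_pow, abs_neg, abs_one, one_pow, mul_one]
        exact abs_ic_le _)
    have e1 : (16 : ℝ) * (1 + 1) * H = 32 * H := by ring
    rw [e1] at h1
    refine h1.trans ?_
    have h5 : 1 ≤ (4 : ℝ) ^ H * V i := by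
      have h6 := mul_le_mul_of_nonneg_left (hVlow i) (by positivity : (0 : ℝ) ≤ (4 : ℝ) ^ H)
      rwa [← Real.rpow_add (by norm_num), add_neg_cancel, Real.rpow_zero] at h6
    rw [div_mul_eq_mul_div]
    refine div_le_div_of_nonneg_right ?_ (by positivity)
    rw [hK]
    have h7 : 0 < exp (32 * H) := exp_pos _
    nlinarith
  have hp := prod_pert (z + 1) V W (fun i => K / 16 ^ (2 * (s + i) + 1)) (fun i _ => hV0 i)
    (fun i _ => by positivity) (fun i _ => hWV i)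
  refine hp.trans ?_
  rw [div_eq_mul_one_div]
  exact mul_le_mul_of_nonneg_left (prod_small K hK0.le s (z + 1) (hS s hs))
    (prod_nonneg fun i _ => hV0 i)

end Pool.Agent.H66.MS
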