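import Pool.Agent.H44.MS.Basics

/-!
# Mertens' product for the primes `3 mod 4`
-/

set_option autoImplicit false

namespace Pool.Agent.H66.MS

open Finset Real Pool.Agent.H44.MS

theorem exp_le_one_sub {t : ℝ} (h0 : 0 ≤ t) (h1 : t ≤ 1 / 2) : exp (-t - 2 * t ^ 2) ≤ 1 - t := by
  have hp : 0 < 1 - t := by linarith
  have h2 := Real.one_sub_inv_le_log_of_pos hp
  have h3 : -t - 2 * t ^ 2 ≤ 1 - (1 - t)⁻¹ := by
    have h4 : (1 - t)⁻¹ ≤ 1 + t + 2 * t ^ 2 := by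
      rw [inv_le_iff_one_le_mul₀ hp]
      nlinarith [mul_nonneg h0 h0, mul_nonneg (mul_nonneg h0 h0) (by linarith : 0 ≤ 1 - 2 * t)]
    linarith
  calc exp (-t - 2 * t ^ 2) ≤ exp (Real.log (1 - t)) := exp_le_exp.2 (h3.trans h2)
    _ = 1 - t := Real.exp_log hp

/-- the terms of the sum -/
noncomputable def tp (p : ℕ) : ℝ := ic (p.Prime ∧ p % 4 = 3) / p

theorem tp_nonneg (p : ℕ) : 0 ≤ tp p := div_nonneg (ic_nonneg _) (Nat.cast_nonneg _)

theorem tp_le (p : ℕ) (hp : 2 ≤ p) : tp p ≤ (p : ℝ)⁻¹ := by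
  unfold tp
  rw [div_eq_mul_inv]
  have h1 : 0 < (p : ℝ) := by exact_mod_cast (by omega : 0 < p)
  calc ic (p.Prime ∧ p % 4 = 3) * (p : ℝ)⁻¹ ≤ 1 * (p : ℝ)⁻¹ :=
        mul_le_mul_of_nonneg_right (ic_le_one _) (by positivity)
    _ = (p : ℝ)⁻¹ := one_mul _

theorem va_eq {y z : ℕ} (hy : 2 ≤ y) : VA (A3 y) z = ∏ p ∈ Ioc y z, (1 - tp p) := by
  unfold VA
  symm
  have hsub : Ioc y z ⊆ Icc 1 z := by
    intro p hp
    rw [mem_Ioc] at hp
    rw [mem_Icc]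
    omega
  have h1 : ∀ p ∈ Icc 1 z, p ∉ Ioc y z → (1 - ic (p.Prime ∧ A3 y p) / (p : ℝ)) = 1 := by
    intro p hp hp'
    rw [mem_Icc] at hp
    rw [mem_Ioc] at hp'
    rw [ic_neg, zero_div, sub_zero]
    rintro ⟨-, -, h⟩
    exact hp' ⟨h, hp.2⟩
  rw [← prod_subset hsub h1]
  refine prod_congr rfl fun p hp => ?_
  rw [mem_Ioc] at hp
  unfold tp
  rw [ic_congr (p := p.Prime ∧ A3 y p) (q := p.Prime ∧ p % 4 = 3)]
  exact ⟨fun h => ⟨h.1, h.2.1⟩, fun h => ⟨h.1, h.2, hp.1⟩⟩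

theorem tp_eq {p : ℕ} (hp : 3 ≤ p) : tp p = (1 / 2) * (ic p.Prime / p - ic p.Prime * chi p / p) := by
  unfold tp
  by_cases h : p.Prime
  · rw [ic_pos h]
    have hodd : p % 2 = 1 := (h.eq_two_or_odd).resolve_left (by omega)
    rcases (by omega : p % 4 = 1 ∨ p % 4 = 3) with h4 | h4
    · rw [ic_neg (by rintro ⟨-, h5⟩; omega), chi_of_one h4]
      ring
    · rw [ic_pos ⟨h, h4⟩, chi_of_three h4]
      ring
  · rw [ic_neg h, ic_neg (by rintro ⟨h5, -⟩; exact h h5)]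
    ring

theorem sum_sq_le {y z : ℕ} (hy : 2 ≤ y) (hyz : y ≤ z) : ∑ p ∈ Ioc y z, tp p ^ 2 ≤ 1 / 2 := by
  have h1 : ∑ p ∈ Ioc y z, tp p ^ 2 ≤ ∑ p ∈ Ioc y z, ((p : ℝ) ^ 2)⁻¹ := by
    refine sum_le_sum fun p hp => ?_
    rw [mem_Ioc] at hp
    rw [← inv_pow]
    exact pow_le_pow_left₀ (tp_nonneg p) (tp_le p (by omega)) 2
  have h2 := sum_Ioc_inv_sq_le_sub (α := ℝ) (k := y) (n := z) (by omega) hyz
  have h3 : (y : ℝ)⁻¹ ≤ 1 / 2 := by
    rw [inv_le_comm₀ (by positivity) (by norm_num)]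
    norm_num
    exact_mod_cast hy
  have h4 : 0 ≤ (z : ℝ)⁻¹ := by positivity
  linarith

/-- Mertens' product for the primes `3 mod 4`. -/
theorem pf_VV (h : T_MER) : T_VV := by
  obtain ⟨C, hC, hM⟩ := h
  have hl2 : 0 < Real.log 2 := Real.log_pos (by norm_num)
  set M : ℝ := C / Real.log 2 with hMdef
  have hM0 : 0 < M := by positivity
  refine ⟨exp (-1 - M), exp M, exp_pos _, exp_pos _, fun y z hy hyz => ?_⟩
  have hly : Real.log 2 ≤ Real.log y := Real.log_le_log (by norm_num) (by exact_mod_cast hy)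
  have hlz : Real.log y ≤ Real.log z :=
    Real.log_le_log (by exact_mod_cast (by omega : 0 < y)) (by exact_mod_cast hyz)
  have hly0 : 0 < Real.log y := hl2.trans_le hly
  have hlz0 : 0 < Real.log z := hly0.trans_le hlz
  have hCy : C / Real.log y ≤ M := by
    rw [hMdef]; gcongr
  obtain ⟨m1, m2⟩ := hM y z hy hyz
  set Q : ℝ := Real.log (Real.log z) - Real.log (Real.log y) with hQ
  have hS : ∑ p ∈ Ioc y z, tp p = (1 / 2) * (∑ p ∈ Ioc y z, ic p.Prime / (p : ℝ) -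
      ∑ p ∈ Ioc y z, ic p.Prime * chi p / p) := by
    rw [← sum_sub_distrib, mul_sum]
    refine sum_congr rfl fun p hp => ?_
    rw [mem_Ioc] at hp
    exact tp_eq (by omega)
  have hSQ : |∑ p ∈ Ioc y z, tp p - (1 / 2) * Q| ≤ M := by
    rw [abs_le] at m1 m2 ⊢
    rw [hS]
    constructor <;> linarith [m1.1, m1.2, m2.1, m2.2]
  have hsqrt : √(Real.log y / Real.log z) = exp (-(1 / 2) * Q) := by
    rw [Real.sqrt_eq_rpow, Real.rpow_def_of_pos (by positivity), Real.log_div hly0.ne' hlz0.ne', hQ]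
    congr 1
    ring
  rw [abs_le] at hSQ
  have hhalf : ∀ p ∈ Ioc y z, tp p ≤ 1 / 2 := by
    intro p hp
    rw [mem_Ioc] at hp
    refine (tp_le p (by omega)).trans ?_
    rw [inv_le_comm₀ (by exact_mod_cast (by omega : 0 < p)) (by norm_num)]
    norm_num
    exact_mod_cast (by omega : 2 ≤ p)
  rw [va_eq hy, hsqrt, ← exp_add, ← exp_add]
  constructor
  · calc exp (-1 - M + -(1 / 2) * Q) ≤ exp (∑ p ∈ Ioc y z, (-tp p - 2 * tp p ^ 2)) := by
          apply exp_le_exp.2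
          rw [sum_sub_distrib, sum_neg_distrib, ← mul_sum]
          have := sum_sq_le hy hyz
          linarith [hSQ.2]
      _ = ∏ p ∈ Ioc y z, exp (-tp p - 2 * tp p ^ 2) := exp_sum _ _
      _ ≤ ∏ p ∈ Ioc y z, (1 - tp p) := prod_le_prod (fun p _ => (exp_pos _).le) fun p hp =>
          exp_le_one_sub (tp_nonneg p) (hhalf p hp)
  · calc ∏ p ∈ Ioc y z, (1 - tp p) ≤ ∏ p ∈ Ioc y z, exp (-tp p) :=
          prod_le_prod (fun p hp => by linarith [hhalf p hp]) fun p hp => by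
            have := Real.add_one_le_exp (-tp p)
            linarith
      _ = exp (∑ p ∈ Ioc y z, -tp p) := (exp_sum _ _).symm
      _ ≤ exp (M + -(1 / 2) * Q) := by
          apply exp_le_exp.2
          rw [sum_neg_distrib]
          linarith [hSQ.1]

end Pool.Agent.H66.MS
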