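import Pool.Agent.H44.MS.Basics

/-!
# Products over the blocks: perturbation lemma, the product formula (for DNa, DNb, DNc, DNd)
-/

set_option autoImplicit false

namespace Pool.Agent.H66.MS

open Finset Real Pool.Agent.H44.MS

/-- multiplicative perturbation -/
theorem prod_pert (I : ℕ) (V W ε : ℕ → ℝ) (hV : ∀ i < I, 0 ≤ V i) (hε : ∀ i < I, 0 ≤ ε i)
    (h : ∀ i < I, |W i - V i| ≤ ε i * V i) :
    |∏ i ∈ range I, W i - ∏ i ∈ range I, V i| ≤
      (∏ i ∈ range I, V i) * (∏ i ∈ range I, (1 + ε i) - 1) := by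
  induction I with
  | zero => simp
  | succ I ih =>
    have ih' := ih (fun i hi => hV i (by omega)) (fun i hi => hε i (by omega))
      (fun i hi => h i (by omega))
    rw [prod_range_succ, prod_range_succ, prod_range_succ]
    set PW := ∏ i ∈ range I, W i
    set PV := ∏ i ∈ range I, V i with hPV
    set PE := ∏ i ∈ range I, (1 + ε i) with hPE
    have hPV0 : 0 ≤ PV := prod_nonneg fun i hi => hV i (by rw [mem_range] at hi; omega)
    have hPE1 : 1 ≤ PE := by
      rw [hPE]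
      have := prod_le_prod (s := range I) (f := fun _ => (1 : ℝ)) (g := fun i => 1 + ε i)
        (fun _ _ => zero_le_one) (fun i hi => by
          rw [mem_range] at hi
          linarith [hε i (by omega)])
      simpa using this
    have h1 := h I (by omega)
    have hVI := hV I (by omega)
    have hεI := hε I (by omega)
    have hW : |W I| ≤ (1 + ε I) * V I := by
      have h2 : |W I| ≤ |W I - V I| + |V I| := by
        have := abs_add_le (W I - V I) (V I)
        rwa [sub_add_cancel] at this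
      rw [abs_of_nonneg hVI] at h2
      linarith
    have e : PW * W I - PV * V I = (PW - PV) * W I + PV * (W I - V I) := by ring
    rw [e]
    refine (abs_add_le _ _).trans ?_
    rw [abs_mul, abs_mul, abs_of_nonneg hPV0]
    have h3 : |PW - PV| * |W I| ≤ (PV * (PE - 1)) * ((1 + ε I) * V I) :=
      mul_le_mul ih' hW (abs_nonneg _) (mul_nonneg hPV0 (by linarith))
    have h4 : PV * |W I - V I| ≤ PV * (ε I * V I) := mul_le_mul_of_nonneg_left h1 hPV0
    have e2 : PV * V I * (PE * (1 + ε I) - 1) =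
        (PV * (PE - 1)) * ((1 + ε I) * V I) + PV * (ε I * V I) := by ring
    rw [e2]
    linarith

/-- `exp x ≤ 1 + 2 x` for `0 ≤ x ≤ 1` -/
theorem exp_le {x : ℝ} (h0 : 0 ≤ x) (h1 : x ≤ 1) : exp x ≤ 1 + 2 * x := by
  have hc := convexOn_exp.2 (Set.mem_univ (0 : ℝ)) (Set.mem_univ (1 : ℝ))
    (show (0 : ℝ) ≤ 1 - x by linarith) h0 (by ring)
  simp only [smul_eq_mul, mul_zero, zero_add, exp_zero, mul_one] at hc
  have he : exp 1 < 3 := by linarith [exp_one_lt_d9]
  nlinarith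

/-- a geometric sum -/
theorem sum_geo (K : ℝ) (hK : 0 ≤ K) (s I : ℕ) :
    ∑ i ∈ range I, K / 16 ^ (2 * (s + i) + 1) ≤ K / 256 ^ s := by
  have h1 : ∀ i : ℕ, K / 16 ^ (2 * (s + i) + 1) = K / 256 ^ s / 16 * (1 / 256) ^ i := by
    intro i
    have : (16 : ℝ) ^ (2 * (s + i) + 1) = 256 ^ s * 16 * 256 ^ i := by
      rw [pow_succ, pow_mul, pow_add]
      norm_num
      ring
    rw [this, one_div, inv_pow]
    field_simp
  simp only [h1]
  rw [← mul_sum]
  have h2 : ∑ i ∈ range I, ((1 : ℝ) / 256) ^ i ≤ 2 := by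
    rw [geom_sum_eq (by norm_num)]
    have h3 : (0 : ℝ) ≤ (1 / 256) ^ I := by positivity
    have : ((1 / 256 : ℝ) ^ I - 1) / (1 / 256 - 1) = (1 - (1 / 256) ^ I) * (256 / 255) := by
      field_simp
      ring
    rw [this]
    linarith
  have h4 : 0 ≤ K / 256 ^ s := by positivity
  nlinarith

/-- the total perturbation is small -/
theorem prod_small (K : ℝ) (hK : 0 ≤ K) (s I : ℕ) (hs : 2 * K ≤ 128 ^ s) :
    ∏ i ∈ range I, (1 + K / 16 ^ (2 * (s + i) + 1)) - 1 ≤ 1 / 2 ^ s := by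
  have h1 : ∏ i ∈ range I, (1 + K / 16 ^ (2 * (s + i) + 1)) ≤
      exp (∑ i ∈ range I, K / 16 ^ (2 * (s + i) + 1)) := by
    rw [exp_sum]
    refine prod_le_prod (fun i _ => by positivity) fun i _ => ?_
    have := Real.add_one_le_exp (K / 16 ^ (2 * (s + i) + 1))
    linarith
  have h2 := sum_geo K hK s I
  have h3 : K / 256 ^ s ≤ 1 / 2 / 2 ^ s := by
    have e : (256 : ℝ) ^ s = 128 ^ s * 2 ^ s := by rw [← mul_pow]; norm_num
    rw [e, div_le_div_iff₀ (by positivity) (by positivity)]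
    have h4 : (0 : ℝ) < 2 ^ s := by positivity
    nlinarith
  have h5 : (1 : ℝ) ≤ 2 ^ s := one_le_pow₀ (by norm_num)
  have h6 : (1 : ℝ) / 2 / 2 ^ s ≤ 1 := by
    rw [div_le_one (by positivity)]
    linarith
  have h7 := exp_le (x := 1 / 2 / 2 ^ s) (by positivity) h6
  have h8 : exp (∑ i ∈ range I, K / 16 ^ (2 * (s + i) + 1)) ≤ exp (1 / 2 / 2 ^ s) :=
    exp_le_exp.2 (h2.trans h3)
  have e2 : 1 + 2 * ((1 : ℝ) / 2 / 2 ^ s) = 1 + 1 / 2 ^ s := by ring
  rw [e2] at h7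
  linarith

/-- a natural number `S` with `2 K ≤ 128 ^ s` for `S ≤ s` -/
theorem exists_S (K : ℝ) : ∃ S : ℕ, ∀ s : ℕ, S ≤ s → 2 * K ≤ 128 ^ s := by
  obtain ⟨S, hS⟩ := pow_unbounded_of_one_lt (2 * K) (by norm_num : (1 : ℝ) < 128)
  refine ⟨S, fun s hs => hS.le.trans ?_⟩
  exact pow_le_pow_right₀ (by norm_num) hs

theorem bi_lt (z p : ℕ) : bi z p < z + 1 := by
  unfold bi
  have h1 := Nat.log_le_self 2 (Nat.log p z)
  have h2 := Nat.log_le_self p z
  omega

/-- the block `i` -/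
noncomputable def Bl (A : ℕ → Prop) (z i : ℕ) : Finset ℕ :=
  (PA A z).filter (fun p => bi z p = i)

theorem mem_PA {A : ℕ → Prop} {z p : ℕ} : p ∈ PA A z ↔ (1 ≤ p ∧ p ≤ z) ∧ p.Prime ∧ A p := by
  classical
  simp only [PA, Finset.mem_filter, Finset.mem_Icc]

theorem prime_of_mem_PA {A : ℕ → Prop} {z p : ℕ} (h : p ∈ PA A z) : p.Prime := (mem_PA.1 h).2.1

theorem prime_of_mem_Bl {A : ℕ → Prop} {z i p : ℕ} (h : p ∈ Bl A z i) : p.Prime :=
  prime_of_mem_PA (mem_filter.1 h).1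

/-- the logarithmic mass of a block -/
theorem mass_Bl {H : ℝ} (hH : ∀ z i : ℕ, ∑ p ∈ Icc 1 z, ic (p.Prime ∧ bi z p = i) / (p : ℝ) ≤ H)
    (A : ℕ → Prop) (z i : ℕ) : ∑ p ∈ Bl A z i, 1 / (p : ℝ) ≤ H := by
  refine le_trans ?_ (hH z i)
  have h1 : ∀ p ∈ Bl A z i, 1 / (p : ℝ) = ic (p.Prime ∧ bi z p = i) / (p : ℝ) := by
    intro p hp
    rw [ic_pos ⟨prime_of_mem_Bl hp, (mem_filter.1 hp).2⟩]
  rw [sum_congr rfl h1]
  refine sum_le_sum_of_subset_of_nonneg ?_ fun p _ _ => div_nonneg (ic_nonneg _) (Nat.cast_nonneg _)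
  intro p hp
  rw [mem_Icc]
  exact (mem_PA.1 (mem_filter.1 hp).1).1

/-- products over the fibres -/
theorem prod_fib (z : ℕ) (T : Finset ℕ) (f : ℕ → ℝ) :
    ∏ i ∈ range (z + 1), ∏ p ∈ T.filter (fun p => bi z p = i), f p = ∏ p ∈ T, f p :=
  prod_fiberwise_of_maps_to (fun p _ => mem_range.2 (bi_lt z p)) f

/-- the product over all primes as a product over the blocks -/
theorem va_prod (hTR : T_TR) (A : ℕ → Prop) (z : ℕ) :
    VA A z = ∏ i ∈ range (z + 1), ∏ p ∈ Bl A z i, (1 - 1 / (p : ℝ)) := by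
  rw [(hTR A z).2.2.2]
  exact (prod_fib z (PA A z) fun p => 1 - 1 / (p : ℝ)).symm

/-- sums over the squarefree numbers as products over the blocks; `F` is given by the functions
`F i` on the blocks for all `T` such that the `i`-th part of `T` is in the block `i` -/
theorem sum_An (hBP : T_BP) (hTR : T_TR) (A : ℕ → Prop) (z X : ℕ) (G : ℕ → ℝ)
    (F : ℕ → Finset ℕ → ℝ) (hX : ∀ T ∈ (PA A z).powerset, G (∏ p ∈ T, p) ≠ 0 → ∏ p ∈ T, p ≤ X)
    (hG : ∀ T ∈ (PA A z).powerset,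
      G (∏ p ∈ T, p) = ∏ i ∈ range (z + 1), F i (T.filter (fun p => bi z p = i))) :
    ∑ d ∈ Icc 1 X, ic (An A z d) * G d =
      ∏ i ∈ range (z + 1), ∑ U ∈ (Bl A z i).powerset, F i U := by
  rw [(hTR A z).2.1 X G]
  have h1 := (hBP (PA A z) (bi z) (z + 1) (fun p _ => bi_lt z p)).1 F
  unfold Bl
  rw [← h1]
  refine sum_congr rfl fun T hT => ?_
  rw [← hG T hT]
  by_cases h0 : G (∏ p ∈ T, p) = 0
  · rw [h0, mul_zero]
  · rw [ic_pos (hX T hT h0), one_mul]

/-- the number of prime factors in a block -/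
theorem om_prod (hTR : T_TR) {A : ℕ → Prop} {z : ℕ} {T : Finset ℕ} (hT : T ∈ (PA A z).powerset)
    (i : ℕ) : om z i (∏ p ∈ T, p) = (T.filter (fun p => bi z p = i)).card := by
  unfold om
  rw [((hTR A z).1 T hT).1]

theorem filter_empty (z : ℕ) (T : Finset ℕ) {i : ℕ} (hi : z + 1 ≤ i) :
    T.filter (fun p => bi z p = i) = ∅ := by
  rw [filter_eq_empty_iff]
  intro p _ h
  have := bi_lt z p
  omega

/-- the indicator of `Ok` as a product -/
theorem ic_Ok (hTR : T_TR) {A : ℕ → Prop} (s : ℕ) {z : ℕ} {T : Finset ℕ}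
    (hT : T ∈ (PA A z).powerset) : ic (Ok s z (∏ p ∈ T, p)) =
      ∏ i ∈ range (z + 1), ic ((T.filter (fun p => bi z p = i)).card ≤ 2 * (s + i)) := by
  by_cases h : Ok s z (∏ p ∈ T, p)
  · rw [ic_pos h]
    symm
    refine prod_eq_one fun i _ => ic_pos ?_
    rw [← om_prod hTR hT]
    exact h i
  · rw [ic_neg h]
    unfold Ok at h
    push Not at h
    obtain ⟨i, hi⟩ := h
    symm
    have hlt : i < z + 1 := by
      by_contra hcon
      rw [om_prod hTR hT, filter_empty z T (not_lt.1 hcon), card_empty] at hi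
      omega
    refine prod_eq_zero (mem_range.2 hlt) (ic_neg ?_)
    rw [← om_prod hTR hT]
    omega

/-- the Moebius function divided by `d` as a product -/
theorem mu_div (hTR : T_TR) {A : ℕ → Prop} {z : ℕ} {T : Finset ℕ}
    (hT : T ∈ (PA A z).powerset) : mu (∏ p ∈ T, p) / ((∏ p ∈ T, p : ℕ) : ℝ) =
      ∏ i ∈ range (z + 1), ((-1) ^ (T.filter (fun p => bi z p = i)).card /
        ∏ p ∈ T.filter (fun p => bi z p = i), (p : ℝ)) := by
  rw [((hTR A z).1 T hT).2.2.2]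
  have h1 : ∀ U : Finset ℕ, (-1 : ℝ) ^ U.card / ∏ p ∈ U, (p : ℝ) = ∏ p ∈ U, (-1 / (p : ℝ)) := by
    intro U
    rw [prod_div_distrib, prod_const]
  simp only [h1]
  rw [prod_fib z T fun p => -1 / (p : ℝ), ← h1]
  push_cast
  rfl

end Pool.Agent.H66.MS
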